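import Mathlib

/-!
# The cover games separate on every perfect Polish space

Let `X` be a nonempty regular `T1` second countable Baire space without isolated points (for
instance any nonempty perfect Polish space), `D` a countable dense subset, `𝒜` the family of the
closed sets `A` with `A ∩ D` finite, and `ℬ` the family of the singletons.  Two has a winning Markov
strategy for `Γ(X, ℬ)` and no winning Markov strategy for `𝒪(X, ℬ)`.  If `X` is completely
metrizable, Two has winning strategies in both games with full information.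

The strategy for `Γ` and the strategy of One against Markov strategies are those of the library
module `R_pool_sql_team_39128cda/Results/MP_953c35_gt/Counter.lean`, where `X = ℝ` and `D = ℚ`.
-/

set_option autoImplicit false

namespace Pool.Agent.Results.MP_953c35_gt.EveryPerfectPolish

open Set Filter Topology

universe u

variable {X : Type u} [TopologicalSpace X]

/-- the open covers in `𝒪(X, ℬ)` -/
def OC (ℬ 𝒰 : Set (Set X)) : Prop :=
  (∀ U ∈ 𝒰, IsOpen U) ∧ ⋃₀ 𝒰 = univ ∧ univ ∉ 𝒰 ∧ ∀ B ∈ ℬ, ∃ U ∈ 𝒰, B ⊆ U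

/-- the open covers in `Γ(X, ℬ)` -/
def GC (ℬ 𝒰 : Set (Set X)) : Prop :=
  𝒰.Infinite ∧ (∀ U ∈ 𝒰, IsOpen U) ∧ ⋃₀ 𝒰 = univ ∧ univ ∉ 𝒰 ∧
    ∀ B ∈ ℬ, {U ∈ 𝒰 | ¬ B ⊆ U}.Finite

/-- `U` is a legal answer to `A` -/
def Legal (A U : Set X) : Prop := IsOpen U ∧ A ⊆ U ∧ U ≠ univ

/-- Two has a winning Markov strategy in the game `G₁(𝒩[𝒜], ¬P)`. -/
def Markov (𝒜 : Set (Set X)) (P : Set (Set X) → Prop) : Prop :=
  ∃ σ : Set X → ℕ → Set X, (∀ A ∈ 𝒜, ∀ n, Legal A (σ A n)) ∧
    ∀ A : ℕ → Set X, (∀ n, A n ∈ 𝒜) → ¬ P (range fun n => σ (A n) n)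

/-- Two has a winning strategy (with full information) in the game `G₁(𝒩[𝒜], ¬P)`. -/
def Wins (𝒜 : Set (Set X)) (P : Set (Set X) → Prop) : Prop :=
  ∃ σ : List (Set X) → Set X, (∀ l : List (Set X), (∀ B ∈ l, B ∈ 𝒜) → ∀ A ∈ 𝒜, Legal A (σ (l ++ [A]))) ∧
    ∀ A : ℕ → Set X, (∀ n, A n ∈ 𝒜) → ¬ P (range fun n => σ ((List.range (n + 1)).map A))

theorem Markov.wins {𝒜 : Set (Set X)} {P : Set (Set X) → Prop} (h : Markov 𝒜 P) : Wins 𝒜 P := by
  obtain ⟨σ, h1, h2⟩ := h
  refine ⟨fun l => σ (l.getLastD ∅) (l.length - 1), fun l _ A hA => ?_, fun A hA => ?_⟩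
  · simp only [List.getLastD_concat]
    exact h1 A hA _
  · convert h2 A hA using 3
    simp [List.range_succ]

/-- the family of the closed sets meeting `D` in a finite set -/
def Fam (D : Set X) : Set (Set X) := {A | IsClosed A ∧ (A ∩ D).Finite}

theorem exists_legal [T1Space X] [Nonempty X] [∀ x : X, (𝓝[≠] x).NeBot] {D : Set X} (hD : Dense D)
    {A : Set X} (hA : A ∈ Fam D) : ∃ q, q ∉ A := by
  by_contra h
  push Not at h
  have h1 : D.Finite := hA.2.subset fun x hx => ⟨h x, hx⟩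
  obtain ⟨x, -, hx, hx2⟩ := (hD.sdiff_finite h1).inter_open_nonempty univ isOpen_univ univ_nonempty
  exact hx2 hx

theorem markov_gamma [RegularSpace X] [T1Space X] [SecondCountableTopology X] [BaireSpace X]
    [Nonempty X] [∀ x : X, (𝓝[≠] x).NeBot] {D : Set X} (hD : Dense D) :
    Markov (Fam D) (GC (range singleton)) := by
  obtain ⟨x0⟩ := ‹Nonempty X›
  obtain ⟨V, hV⟩ : ∃ V : ℕ → Set X, (∀ i, IsOpen (V i) ∧ (V i).Nonempty) ∧
      ∀ O, IsOpen O → O.Nonempty → ∃ i, V i ⊆ O := by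
    obtain ⟨V, hV⟩ := (TopologicalSpace.countable_countableBasis X).exists_eq_range
      (((TopologicalSpace.isBasis_countableBasis X).exists_subset_of_mem_open (mem_univ x0)
        isOpen_univ).imp fun _ h => h.1)
    refine ⟨V, fun i => ⟨TopologicalSpace.isOpen_of_mem_countableBasis (hV ▸ ⟨i, rfl⟩),
      TopologicalSpace.nonempty_of_mem_countableBasis (hV ▸ ⟨i, rfl⟩)⟩, fun O h1 ⟨x, h2⟩ => ?_⟩
    obtain ⟨_, ⟨i, rfl⟩, -, h3⟩ := (hV ▸ TopologicalSpace.isBasis_countableBasis X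
      ).exists_subset_of_mem_open h2 h1
    exact ⟨i, h3⟩
  have h1 (A : Set X) (hA : A ∈ Fam D) (i : ℕ) : ∃ C, IsClosed C ∧ C ⊆ (insert x0 A)ᶜ ∧
      (interior C ∩ V i).Nonempty := by
    have hfin : (insert x0 (A ∩ D)).Finite := hA.2.insert x0
    obtain ⟨q, h1, h2, h3⟩ := (hD.sdiff_finite hfin).inter_open_nonempty
      _ (hV.1 i).1 (hV.1 i).2
    obtain ⟨C, h4, h5, h6⟩ := exists_mem_nhds_isClosed_subset (x := q) (s := (insert x0 A)ᶜ)
      ((isClosed_singleton.union hA.1).isOpen_compl.mem_nhds fun h =>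
        h3 (h.imp_right fun h => ⟨h, h2⟩))
    exact ⟨C, h5, h6, q, mem_interior_iff_mem_nhds.2 h4, h1⟩
  choose! C h1 h2 h3 using h1
  let σ (A : Set X) (n : ℕ) := (⋃ i ≤ n, C A i)ᶜ
  have h4 (A) (hA : A ∈ Fam D) (n : ℕ) : IsOpen (σ A n) ∧ insert x0 A ⊆ σ A n ∧ σ A n ≠ univ :=
    ⟨((finite_le_nat n).isClosed_biUnion fun i _ => h1 A hA i).isOpen_compl,
      subset_compl_comm.1 (iUnion₂_subset fun i _ => h2 A hA i), fun h => (h3 A hA 0).elim
        fun x hx => (h ▸ mem_univ x : x ∈ σ A n) (mem_biUnion n.zero_le (interior_subset hx.1))⟩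
  refine ⟨σ, fun A h n => ⟨(h4 A h n).1, (subset_insert _ _).trans (h4 A h n).2.1, (h4 A h n).2.2⟩,
    fun A hA ⟨_, _, _, _, h⟩ => ?_⟩
  have h5 {T : Set ℕ} (hT : T.Infinite) : Dense (⋃ n ∈ T, interior (σ (A n) n)ᶜ) :=
    dense_iff_inter_open.2 fun O k1 k2 => by
      obtain ⟨i, hi⟩ := hV.2 O k1 k2
      obtain ⟨n, k3, k4⟩ := hT.exists_gt i
      obtain ⟨x, k5, k6⟩ := h3 _ (hA n) i
      exact ⟨x, hi k6, mem_biUnion k3 (interior_mono
        (fun _ h h' => h' (mem_biUnion k4.le h)) k5)⟩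
  obtain ⟨x, hx⟩ := (dense_iInter_of_isOpen (fun m => isOpen_biUnion fun _ _ => isOpen_interior)
    fun m : ℕ => h5 (Ici_infinite m)).nonempty
  refine infinite_of_forall_exists_gt (s := {n | x ∉ σ (A n) n}) (fun m => ?_)
    (Finite.of_finite_fibers (fun n => σ (A n) n) ((h _ ⟨x, rfl⟩).subset ?_) ?_)
  · obtain ⟨n, k1, k2⟩ := mem_iUnion₂.1 (mem_iInter.1 hx (m + 1))
    exact ⟨n, interior_subset (s := (σ (A n) n)ᶜ) k2, k1⟩
  · rintro _ ⟨n, hn, rfl⟩
    exact ⟨⟨n, rfl⟩, fun h => hn (h rfl)⟩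
  rintro _ ⟨n, -, rfl⟩
  by_contra k
  obtain ⟨y, k1, k2⟩ := (h5 k).inter_open_nonempty _ (h4 _ (hA n) n).1
    ⟨x0, (h4 _ (hA n) n).2.1 (Or.inl rfl)⟩
  obtain ⟨m, k3, k4⟩ := mem_iUnion₂.1 k2
  exact interior_subset k4 ((show σ (A m) m = σ (A n) n from k3.2) ▸ k1)

theorem not_markov_O [T1Space X] [Nonempty X] {D : Set X} (hD : D.Countable) :
    ¬ Markov (Fam D) (OC (range singleton)) := by
  rintro ⟨τ, h5, h6⟩
  obtain ⟨x0⟩ := ‹Nonempty X›
  obtain ⟨q, hq⟩ := (hD.insert x0).exists_eq_range (insert_nonempty _ _)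
  have h7 (n : ℕ) : {q n} ∈ Fam D :=
    ⟨isClosed_singleton, (finite_singleton _).subset inter_subset_left⟩
  let A : ℕ → Set X := Nat.rec (⋃ n, τ {q n} (n + 1))ᶜ fun n _ => {q n}
  have h8 : ∀ n, A n ∈ Fam D
    | 0 => ⟨(isOpen_iUnion fun n => (h5 _ (h7 n) _).1).isClosed_compl, finite_empty.subset
      fun x ⟨h, hx⟩ => by
        have hx' : x ∈ range q := hq ▸ mem_insert_of_mem x0 hx
        obtain ⟨n, hn⟩ := hx'
        exact h (mem_iUnion.2 ⟨n, (h5 _ (h7 n) _).2.1 hn.symm⟩)⟩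
    | n + 1 => h7 n
  have h9 (x : X) : ∃ n, x ∈ τ (A n) n := by_contra fun h => h ⟨0, (h5 _ (h8 0) 0).2.1
    fun h' => (mem_iUnion.1 h').elim fun n hn => h ⟨n + 1, hn⟩⟩
  exact h6 A h8 ⟨forall_mem_range.2 fun n => (h5 _ (h8 n) n).1, eq_univ_of_forall fun x =>
    (h9 x).elim fun n h => ⟨_, ⟨n, rfl⟩, h⟩, fun ⟨n, h⟩ => (h5 _ (h8 n) n).2.2 h,
    forall_mem_range.2 fun x => (h9 x).elim fun n h => ⟨_, ⟨n, rfl⟩, singleton_subset_iff.2 h⟩⟩

theorem wins_O [PolishSpace X] [Nonempty X] [∀ x : X, (𝓝[≠] x).NeBot] {D : Set X}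
    (hD : Dense D) : Wins (Fam D) (OC (range singleton)) := by
  let _ := TopologicalSpace.upgradeIsCompletelyMetrizable X
  obtain ⟨x0⟩ := ‹Nonempty X›
  have step : ∀ (p : X × ℝ) (A : Set X), ∃ p' : X × ℝ, 0 < p.2 → A ∈ Fam D →
      0 < p'.2 ∧ p'.2 ≤ p.2 / 2 ∧ Metric.closedBall p'.1 p'.2 ⊆ Metric.closedBall p.1 p.2 \ A := by
    intro p A
    by_cases h : 0 < p.2 ∧ A ∈ Fam D
    · obtain ⟨hp, hA⟩ := h
      obtain ⟨q, h1, h2, h3⟩ := (hD.sdiff_finite hA.2).inter_open_nonempty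
        _ Metric.isOpen_ball ⟨p.1, Metric.mem_ball_self hp⟩
      have h4 : q ∈ Metric.ball p.1 p.2 \ A := ⟨h1, fun h => h3 ⟨h, h2⟩⟩
      obtain ⟨ε, hε, h5⟩ := Metric.nhds_basis_closedBall.mem_iff.1
        ((Metric.isOpen_ball.sdiff hA.1).mem_nhds h4)
      refine ⟨(q, min ε (p.2 / 2)), fun _ _ => ⟨lt_min hε (by linarith), min_le_right _ _, ?_⟩⟩
      refine (Metric.closedBall_subset_closedBall (min_le_left _ _)).trans (h5.trans ?_)
      exact sdiff_subset_sdiff_left Metric.ball_subset_closedBall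
    · exact ⟨p, fun h1 h2 => absurd ⟨h1, h2⟩ h⟩
  choose nxt hn using step
  let st : List (Set X) → X × ℝ := fun l => l.foldl nxt (x0, 1)
  have st_cons : ∀ l A, st (l ++ [A]) = nxt (st l) A := fun l A => by
    simp only [st, List.foldl_append, List.foldl_cons, List.foldl_nil]
  have st_pos : ∀ l : List (Set X), (∀ B ∈ l, B ∈ Fam D) → 0 < (st l).2 := by
    intro l
    induction l using List.reverseRecOn with
    | nil => intro _; exact one_pos
    | append_singleton l A ih =>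
      intro h
      rw [st_cons]
      exact (hn _ A (ih fun B hB => h B (List.mem_append_left _ hB)) (h A (by simp))).1
  refine ⟨fun l => (Metric.closedBall (st l).1 (st l).2)ᶜ, fun l hl A hA => ?_, fun A hA => ?_⟩
  · have h1 := hn _ A (st_pos l hl) hA
    show Legal A (Metric.closedBall (st (l ++ [A])).1 (st (l ++ [A])).2)ᶜ
    rw [st_cons]
    refine ⟨Metric.isClosed_closedBall.isOpen_compl, fun x hx hx' => (h1.2.2 hx').2 hx, fun h => ?_⟩
    exact (h ▸ mem_univ (nxt (st l) A).1 : _ ∈ (Metric.closedBall _ _)ᶜ)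
      (Metric.mem_closedBall_self h1.1.le)
  · rintro ⟨-, h2, -, -⟩
    let B : ℕ → Set X := fun n => Metric.closedBall (st ((List.range n).map A)).1
      (st ((List.range n).map A)).2
    have hmem : ∀ n, ∀ b ∈ (List.range n).map A, b ∈ Fam D := fun n b hb => by
      obtain ⟨i, -, rfl⟩ := List.mem_map.1 hb
      exact hA i
    have hs : ∀ n, st ((List.range (n + 1)).map A) = nxt (st ((List.range n).map A)) (A n) :=
      fun n => by rw [List.range_succ, List.map_append, List.map_singleton, st_cons]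
    have hr : ∀ n, (st ((List.range n).map A)).2 ≤ (1 / 2) ^ n := by
      intro n
      induction n with
      | zero => simp [st]
      | succ n ih =>
        rw [hs, pow_succ]
        linarith [(hn _ (A n) (st_pos _ (hmem n)) (hA n)).2.1]
    have hanti : Antitone B := antitone_nat_of_succ_le fun n => by
      show Metric.closedBall _ _ ⊆ Metric.closedBall _ _
      rw [hs]
      exact (hn _ (A n) (st_pos _ (hmem n)) (hA n)).2.2.trans sdiff_subset
    have hne : (⋂ n, B n).Nonempty := by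
      refine Metric.nonempty_iInter_of_nonempty_biInter
        (fun n => Metric.isClosed_closedBall) (fun n => Metric.isBounded_closedBall) (fun N => ?_) ?_
      · refine ⟨(st ((List.range N).map A)).1, mem_iInter₂.2 fun n hnN => hanti hnN ?_⟩
        exact Metric.mem_closedBall_self (st_pos _ (hmem N)).le
      · refine squeeze_zero (fun _ => Metric.diam_nonneg) (g := fun n => 2 * (1 / 2 : ℝ) ^ n)
          (fun n => ?_) ?_
        · exact (Metric.diam_closedBall (st_pos _ (hmem n)).le).trans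
            (mul_le_mul_of_nonneg_left (hr n) (by norm_num))
        · simpa using (tendsto_pow_atTop_nhds_zero_of_lt_one (r := (1 / 2 : ℝ)) (by norm_num)
            (by norm_num)).const_mul 2
    obtain ⟨x, hx⟩ := hne
    obtain ⟨_, ⟨n, rfl⟩, hxn⟩ := h2.ge (mem_univ x)
    exact hxn (mem_iInter.1 hx (n + 1))

/-- (1) Let `X` be a nonempty regular `T1` second countable Baire space without isolated points and `D`
a countable dense set. The closed sets `A` with `A ∩ D` finite form an ideal base `Fam D`, each of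
them lies in an open set `≠ X`, and for the family `ℬ` of the singletons Two has a winning Markov
strategy (hence also a winning strategy) in `G₁(𝒩[𝒜], ¬Γ(X, ℬ))`, but no winning Markov strategy in
`G₁(𝒩[𝒜], ¬𝒪(X, ℬ))`. (2) Every nonempty Polish space without isolated points has a countable dense
subset and for each of them the conclusion of (1) holds; moreover Two has winning strategies
with full information in both games. -/
theorem result :
    (∀ (X : Type u) [TopologicalSpace X] [RegularSpace X] [T1Space X] [SecondCountableTopology X]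
      [BaireSpace X] [Nonempty X] [∀ x : X, (𝓝[≠] x).NeBot] (D : Set X), D.Countable → Dense D →
        (∀ A ∈ Fam D, ∀ A' ∈ Fam D, ∃ A'' ∈ Fam D, A ∪ A' ⊆ A'') ∧
        (∀ A ∈ Fam D, ∃ U, Legal A U) ∧
        Markov (Fam D) (GC (range singleton)) ∧ Wins (Fam D) (GC (range singleton)) ∧
        ¬ Markov (Fam D) (OC (range singleton))) ∧
    (∀ (X : Type u) [TopologicalSpace X] [PolishSpace X] [Nonempty X] [∀ x : X, (𝓝[≠] x).NeBot],
      (∃ D : Set X, D.Countable ∧ Dense D) ∧ ∀ D : Set X, D.Countable → Dense D →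
        (∀ A ∈ Fam D, ∀ A' ∈ Fam D, ∃ A'' ∈ Fam D, A ∪ A' ⊆ A'') ∧
        (∀ A ∈ Fam D, ∃ U, Legal A U) ∧
        Markov (Fam D) (GC (range singleton)) ∧ Wins (Fam D) (GC (range singleton)) ∧
        ¬ Markov (Fam D) (OC (range singleton)) ∧ Wins (Fam D) (OC (range singleton))) := by
  have main : ∀ (X : Type u) [TopologicalSpace X] [RegularSpace X] [T1Space X]
      [SecondCountableTopology X] [BaireSpace X] [Nonempty X] [∀ x : X, (𝓝[≠] x).NeBot] (D : Set X),
      D.Countable → Dense D →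
        (∀ A ∈ Fam D, ∀ A' ∈ Fam D, ∃ A'' ∈ Fam D, A ∪ A' ⊆ A'') ∧
        (∀ A ∈ Fam D, ∃ U, Legal A U) ∧
        Markov (Fam D) (GC (range singleton)) ∧ Wins (Fam D) (GC (range singleton)) ∧
        ¬ Markov (Fam D) (OC (range singleton)) := by
    intro X _ _ _ _ _ _ _ D hc hd
    have h1 := markov_gamma hd
    refine ⟨fun A h A' h' => ⟨_, ⟨h.1.union h'.1, ?_⟩, subset_rfl⟩, fun A hA => ?_, h1, h1.wins,
      not_markov_O hc⟩
    · rw [union_inter_distrib_right]
      exact h.2.union h'.2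
    · obtain ⟨σ, hσ, -⟩ := h1
      exact ⟨_, hσ A hA 0⟩
  refine ⟨main, fun X _ _ _ _ => ⟨TopologicalSpace.exists_countable_dense X, fun D hc hd => ?_⟩⟩
  obtain ⟨h1, h2, h3, h4, h5⟩ := main X D hc hd
  exact ⟨h1, h2, h3, h4, h5, wins_O hd⟩

end Pool.Agent.Results.MP_953c35_gt.EveryPerfectPolish
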